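import Mathlib

/-!
# A mixed mc-edge-critical graph

We exhibit a connected graph with 20 vertices and 27 edges which is mc-edge-critical and has an
edge whose deletion decreases the majority C-chromatic number as well as an edge whose deletion
increases it.
-/

namespace Pool.Agent.Results.MP_232fda_co.MixedCritical

/-- A majority C-colouring of `G` with `k` (nonempty) colour classes: a surjective map `c` from the
vertices onto `Fin k` such that every vertex `v` has at least half of its neighbours in its own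
class. -/
def IsMajority {V : Type*} (G : SimpleGraph V) {k : ℕ} (c : V → Fin k) : Prop :=
  Function.Surjective c ∧
    ∀ v, (G.neighborSet v).ncard ≤ 2 * {w | G.Adj v w ∧ c w = c v}.ncard

/-- The majority C-chromatic number of `G`: the largest number of classes of a majority
C-colouring of `G`. -/
noncomputable def mc {V : Type*} (G : SimpleGraph V) : ℕ :=
  sSup {k | ∃ c : V → Fin k, IsMajority G c}

/-- A graph with at least one edge such that the deletion of any edge changes `mc`. -/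
def IsMcEdgeCritical {V : Type*} (G : SimpleGraph V) : Prop :=
  G.edgeSet.Nonempty ∧ ∀ e ∈ G.edgeSet, mc (G.deleteEdges {e}) ≠ mc G

/-! ### General facts on `mc` -/

lemma card_bound {V : Type*} [Fintype V] {k : ℕ} {c : V → Fin k}
    (h : Function.Surjective c) : k ≤ Fintype.card V := by
  simpa using Fintype.card_le_of_surjective c h

lemma bddAbove_set {V : Type*} [Fintype V] (G : SimpleGraph V) :
    BddAbove {k | ∃ c : V → Fin k, IsMajority G c} :=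
  ⟨Fintype.card V, fun _ ⟨_, hc⟩ => card_bound hc.1⟩

lemma le_mc {V : Type*} [Fintype V] (G : SimpleGraph V) {k : ℕ} (c : V → Fin k)
    (h : IsMajority G c) : k ≤ mc G :=
  le_csSup (bddAbove_set G) ⟨c, h⟩

/-- Merging colours. -/
lemma merge {V : Type*} [Fintype V] (G : SimpleGraph V) {m k : ℕ} (hkm : k + 1 ≤ m)
    (c : V → Fin m) (h : IsMajority G c) : ∃ c' : V → Fin (k + 1), IsMajority G c' := by
  classical
  refine ⟨fun v => ⟨min (c v).val k, by omega⟩, ?_, ?_⟩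
  · intro y
    obtain ⟨v, hv⟩ := h.1 ⟨y.val, by omega⟩
    refine ⟨v, ?_⟩
    ext
    simp only [hv]
    omega
  · intro v
    refine (h.2 v).trans ?_
    refine Nat.mul_le_mul_left 2 (Set.ncard_le_ncard ?_ (Set.toFinite _))
    intro w hw
    refine ⟨hw.1, ?_⟩
    simp only [hw.2]

lemma mc_le {V : Type*} [Fintype V] (G : SimpleGraph V) (k : ℕ)
    (h : ∀ c : V → Fin (k + 1), ¬ IsMajority G c) : mc G ≤ k := by
  unfold mc
  refine csSup_le' ?_
  rintro m ⟨c, hc⟩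
  by_contra hm
  obtain ⟨c', hc'⟩ := merge G (k := k) (by omega) c hc
  exact h c' hc'

/-! ### Graphs given by neighbour lists -/

lemma ncard_list {α : Type*} (l : List α) (h : l.Nodup) (p : α → Prop) [DecidablePred p] :
    {w | w ∈ l ∧ p w}.ncard = l.countP (fun w => decide (p w)) := by
  classical
  have : {w | w ∈ l ∧ p w} = ((l.filter (fun w => decide (p w))).toFinset : Set α) := by
    ext w
    simp
  rw [this, Set.ncard_coe_finset, List.toFinset_card_of_nodup (h.filter _),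
    List.countP_eq_length_filter]

lemma ncard_list' {α : Type*} (l : List α) (h : l.Nodup) :
    {w | w ∈ l}.ncard = l.length := by
  classical
  have : {w | w ∈ l} = (l.toFinset : Set α) := by
    ext w
    simp
  rw [this, Set.ncard_coe_finset, List.toFinset_card_of_nodup h]

/-- `nb` lists the neighbours of every vertex of `H`. -/
def Lists {n : ℕ} (H : SimpleGraph (Fin n)) (nb : Fin n → List (Fin n)) : Prop :=
  (∀ v, (nb v).Nodup) ∧ ∀ v w, H.Adj v w ↔ w ∈ nb v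

lemma isMajority_iff {n : ℕ} {H : SimpleGraph (Fin n)} {nb : Fin n → List (Fin n)}
    (hl : Lists H nb) {k : ℕ} (c : Fin n → Fin k) :
    IsMajority H c ↔ Function.Surjective c ∧
      ∀ v, (nb v).length ≤ 2 * (nb v).countP (fun w => decide (c w = c v)) := by
  unfold IsMajority
  refine and_congr Iff.rfl (forall_congr' fun v => ?_)
  have h1 : H.neighborSet v = {w | w ∈ nb v} := by
    ext w
    simp [SimpleGraph.mem_neighborSet, hl.2]
  have h2 : {w | H.Adj v w ∧ c w = c v} = {w | w ∈ nb v ∧ c w = c v} := by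
    ext w
    simp [hl.2]
  rw [h1, h2, ncard_list' _ (hl.1 v), ncard_list _ (hl.1 v)]

/-! ### The graph -/

/-- The neighbour lists of the graph: the vertices `0, ..., 9` are the core, the vertices
`10, ..., 19` are pendant. -/
def nb : Fin 20 → List (Fin 20) := ![
  [3, 6, 8, 10, 11],
  [2, 3, 8, 12, 13],
  [1, 3, 5, 14, 15],
  [0, 1, 2, 6, 7, 9],
  [5, 7, 8, 9],
  [2, 4, 6, 8],
  [0, 3, 5, 16, 17],
  [3, 4, 18],
  [0, 1, 4, 5],
  [3, 4, 19],
  [0],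
  [0],
  [1],
  [1],
  [2],
  [2],
  [6],
  [6],
  [7],
  [9]]

lemma nb_symm : ∀ v w : Fin 20, w ∈ nb v → v ∈ nb w := by decide +kernel

lemma nb_irrefl : ∀ v : Fin 20, v ∉ nb v := by decide +kernel

lemma nb_nodup : ∀ v : Fin 20, (nb v).Nodup := by decide +kernel

/-- The counterexample: a connected graph with 20 vertices and 27 edges. -/
def G : SimpleGraph (Fin 20) where
  Adj v w := w ∈ nb v
  symm := ⟨fun v w h => nb_symm v w h⟩
  loopless := ⟨fun v h => nb_irrefl v h⟩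

lemma lists_G : Lists G nb := ⟨nb_nodup, fun _ _ => Iff.rfl⟩

/-- The neighbour lists after deleting the edge `ab`. -/
def nbd (a b v : Fin 20) : List (Fin 20) :=
  (nb v).filter fun w => !((v == a && w == b) || (v == b && w == a))

lemma lists_del (a b : Fin 20) : Lists (G.deleteEdges {s(a, b)}) (nbd a b) := by
  refine ⟨fun v => (nb_nodup v).filter _, fun v w => ?_⟩
  rw [SimpleGraph.deleteEdges_adj]
  simp only [G, nbd, List.mem_filter, Set.mem_singleton_iff, Sym2.eq_iff, Bool.not_eq_true',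
    Bool.or_eq_false_iff, Bool.and_eq_false_iff, beq_eq_false_iff_ne]
  tauto

/-! ### Lower bounds: explicit colourings -/

lemma lower_G : 3 ≤ mc G := by
  refine le_mc G (![0, 1, 1, 0, 2, 2, 0, 0, 2, 0, 0, 0, 1, 1, 1, 1, 0, 0, 0, 0] : Fin 20 → Fin 3) ?_
  rw [isMajority_iff lists_G]
  decide +kernel

/-- The 24 edges whose deletion increases `mc`. -/
def inc : List (Fin 20 × Fin 20) := [(0, 3), (0, 6), (0, 8), (0, 10), (0, 11), (1, 2), (1, 3), (1, 8), (1, 12), (1, 13), (2, 3), (2, 5), (2, 14), (2, 15), (3, 6), (3, 7), (3, 9), (4, 7), (4, 9), (5, 6), (6, 16), (6, 17), (7, 18), (9, 19)]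

lemma lower_aux (a b : Fin 20) (c : Fin 20 → Fin 4)
    (h : Function.Surjective c ∧ ∀ v, (nbd a b v).length ≤
      2 * (nbd a b v).countP (fun w => decide (c w = c v))) :
    4 ≤ mc (G.deleteEdges {s(a, b)}) :=
  le_mc _ c ((isMajority_iff (lists_del a b) c).2 h)

lemma low_0_3 : 4 ≤ mc (G.deleteEdges {s(0, 3)}) :=
  lower_aux 0 3 ![0, 1, 1, 2, 3, 3, 2, 2, 3, 2, 0, 0, 1, 1, 1, 1, 2, 2, 2, 2]
    (by decide +kernel)

lemma low_0_6 : 4 ≤ mc (G.deleteEdges {s(0, 6)}) :=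
  lower_aux 0 6 ![0, 1, 1, 0, 2, 2, 3, 0, 2, 0, 0, 0, 1, 1, 1, 1, 3, 3, 0, 0]
    (by decide +kernel)

lemma low_0_8 : 4 ≤ mc (G.deleteEdges {s(0, 8)}) :=
  lower_aux 0 8 ![0, 1, 1, 2, 3, 3, 2, 2, 3, 2, 0, 0, 1, 1, 1, 1, 2, 2, 2, 2]
    (by decide +kernel)

lemma low_0_10 : 4 ≤ mc (G.deleteEdges {s(0, 10)}) :=
  lower_aux 0 10 ![0, 1, 1, 0, 2, 2, 0, 0, 2, 0, 3, 0, 1, 1, 1, 1, 0, 0, 0, 0]
    (by decide +kernel)

lemma low_0_11 : 4 ≤ mc (G.deleteEdges {s(0, 11)}) :=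
  lower_aux 0 11 ![0, 1, 1, 0, 2, 2, 0, 0, 2, 0, 0, 3, 1, 1, 1, 1, 0, 0, 0, 0]
    (by decide +kernel)

lemma low_1_2 : 4 ≤ mc (G.deleteEdges {s(1, 2)}) :=
  lower_aux 1 2 ![0, 1, 2, 0, 3, 3, 0, 0, 3, 0, 0, 0, 1, 1, 2, 2, 0, 0, 0, 0]
    (by decide +kernel)

lemma low_1_3 : 4 ≤ mc (G.deleteEdges {s(1, 3)}) :=
  lower_aux 1 3 ![0, 1, 2, 2, 3, 3, 0, 2, 3, 2, 0, 0, 1, 1, 2, 2, 0, 0, 2, 2]
    (by decide +kernel)

lemma low_1_8 : 4 ≤ mc (G.deleteEdges {s(1, 8)}) :=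
  lower_aux 1 8 ![0, 1, 2, 2, 3, 3, 0, 2, 3, 2, 0, 0, 1, 1, 2, 2, 0, 0, 2, 2]
    (by decide +kernel)

lemma low_1_12 : 4 ≤ mc (G.deleteEdges {s(1, 12)}) :=
  lower_aux 1 12 ![0, 1, 1, 0, 2, 2, 0, 0, 2, 0, 0, 0, 3, 1, 1, 1, 0, 0, 0, 0]
    (by decide +kernel)

lemma low_1_13 : 4 ≤ mc (G.deleteEdges {s(1, 13)}) :=
  lower_aux 1 13 ![0, 1, 1, 0, 2, 2, 0, 0, 2, 0, 0, 0, 1, 3, 1, 1, 0, 0, 0, 0]
    (by decide +kernel)

lemma low_2_3 : 4 ≤ mc (G.deleteEdges {s(2, 3)}) :=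
  lower_aux 2 3 ![0, 1, 2, 1, 3, 3, 0, 1, 3, 1, 0, 0, 1, 1, 2, 2, 0, 0, 1, 1]
    (by decide +kernel)

lemma low_2_5 : 4 ≤ mc (G.deleteEdges {s(2, 5)}) :=
  lower_aux 2 5 ![0, 1, 2, 1, 3, 3, 0, 1, 3, 1, 0, 0, 1, 1, 2, 2, 0, 0, 1, 1]
    (by decide +kernel)

lemma low_2_14 : 4 ≤ mc (G.deleteEdges {s(2, 14)}) :=
  lower_aux 2 14 ![0, 1, 1, 0, 2, 2, 0, 0, 2, 0, 0, 0, 1, 1, 3, 1, 0, 0, 0, 0]
    (by decide +kernel)

lemma low_2_15 : 4 ≤ mc (G.deleteEdges {s(2, 15)}) :=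
  lower_aux 2 15 ![0, 1, 1, 0, 2, 2, 0, 0, 2, 0, 0, 0, 1, 1, 1, 3, 0, 0, 0, 0]
    (by decide +kernel)

lemma low_3_6 : 4 ≤ mc (G.deleteEdges {s(3, 6)}) :=
  lower_aux 3 6 ![0, 1, 1, 0, 2, 2, 3, 0, 2, 0, 0, 0, 1, 1, 1, 1, 3, 3, 0, 0]
    (by decide +kernel)

lemma low_3_7 : 4 ≤ mc (G.deleteEdges {s(3, 7)}) :=
  lower_aux 3 7 ![0, 1, 1, 0, 2, 2, 0, 3, 2, 0, 0, 0, 1, 1, 1, 1, 0, 0, 3, 0]
    (by decide +kernel)

lemma low_3_9 : 4 ≤ mc (G.deleteEdges {s(3, 9)}) :=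
  lower_aux 3 9 ![0, 1, 1, 0, 2, 2, 0, 0, 2, 3, 0, 0, 1, 1, 1, 1, 0, 0, 0, 3]
    (by decide +kernel)

lemma low_4_7 : 4 ≤ mc (G.deleteEdges {s(4, 7)}) :=
  lower_aux 4 7 ![0, 1, 1, 0, 2, 2, 0, 3, 2, 0, 0, 0, 1, 1, 1, 1, 0, 0, 3, 0]
    (by decide +kernel)

lemma low_4_9 : 4 ≤ mc (G.deleteEdges {s(4, 9)}) :=
  lower_aux 4 9 ![0, 1, 1, 0, 2, 2, 0, 0, 2, 3, 0, 0, 1, 1, 1, 1, 0, 0, 0, 3]
    (by decide +kernel)

lemma low_5_6 : 4 ≤ mc (G.deleteEdges {s(5, 6)}) :=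
  lower_aux 5 6 ![0, 1, 1, 0, 2, 2, 3, 0, 2, 0, 0, 0, 1, 1, 1, 1, 3, 3, 0, 0]
    (by decide +kernel)

lemma low_6_16 : 4 ≤ mc (G.deleteEdges {s(6, 16)}) :=
  lower_aux 6 16 ![0, 1, 1, 0, 2, 2, 0, 0, 2, 0, 0, 0, 1, 1, 1, 1, 3, 0, 0, 0]
    (by decide +kernel)

lemma low_6_17 : 4 ≤ mc (G.deleteEdges {s(6, 17)}) :=
  lower_aux 6 17 ![0, 1, 1, 0, 2, 2, 0, 0, 2, 0, 0, 0, 1, 1, 1, 1, 0, 3, 0, 0]
    (by decide +kernel)

lemma low_7_18 : 4 ≤ mc (G.deleteEdges {s(7, 18)}) :=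
  lower_aux 7 18 ![0, 1, 1, 0, 2, 2, 0, 0, 2, 0, 0, 0, 1, 1, 1, 1, 0, 0, 3, 0]
    (by decide +kernel)

lemma low_9_19 : 4 ≤ mc (G.deleteEdges {s(9, 19)}) :=
  lower_aux 9 19 ![0, 1, 1, 0, 2, 2, 0, 0, 2, 0, 0, 0, 1, 1, 1, 1, 0, 0, 0, 3]
    (by decide +kernel)

lemma lower_del (a b : Fin 20) (h : (a, b) ∈ inc) : 4 ≤ mc (G.deleteEdges {s(a, b)}) := by
  simp only [inc, List.mem_cons, Prod.mk.injEq, List.not_mem_nil, or_false] at h
  rcases h with ⟨rfl, rfl⟩ | ⟨rfl, rfl⟩ | ⟨rfl, rfl⟩ | ⟨rfl, rfl⟩ | ⟨rfl, rfl⟩ | ⟨rfl, rfl⟩ | ⟨rfl, rfl⟩ | ⟨rfl, rfl⟩ | ⟨rfl, rfl⟩ | ⟨rfl, rfl⟩ | ⟨rfl, rfl⟩ | ⟨rfl, rfl⟩ | ⟨rfl, rfl⟩ | ⟨rfl, rfl⟩ | ⟨rfl, rfl⟩ | ⟨rfl, rfl⟩ | ⟨rfl, rfl⟩ | ⟨rfl, rfl⟩ | ⟨rfl, rfl⟩ | ⟨rfl, rfl⟩ | ⟨rfl, rfl⟩ | ⟨rfl, rfl⟩ | ⟨rfl, rfl⟩ | ⟨rfl, rfl⟩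
  · exact low_0_3
  · exact low_0_6
  · exact low_0_8
  · exact low_0_10
  · exact low_0_11
  · exact low_1_2
  · exact low_1_3
  · exact low_1_8
  · exact low_1_12
  · exact low_1_13
  · exact low_2_3
  · exact low_2_5
  · exact low_2_14
  · exact low_2_15
  · exact low_3_6
  · exact low_3_7
  · exact low_3_9
  · exact low_4_7
  · exact low_4_9
  · exact low_5_6
  · exact low_6_16
  · exact low_6_17
  · exact low_7_18
  · exact low_9_19

/-! ### Upper bounds: no colourings with more classes -/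

/-- At least half of the entries of `l` are equal to `x`. -/
def Ok {k : ℕ} (x : Fin k) (l : List (Fin k)) : Prop :=
  l.length ≤ 2 * l.countP (fun y => decide (y = x))

instance {k : ℕ} (x : Fin k) (l : List (Fin k)) : Decidable (Ok x l) :=
  inferInstanceAs (Decidable (_ ≤ _))

lemma ok_single {k : ℕ} {x y : Fin k} (h : Ok x [y]) : x = y := by
  by_contra hne
  have : ¬ y = x := fun h' => hne h'.symm
  simp [Ok, this] at h

lemma ok_of_isMajority {n : ℕ} {H : SimpleGraph (Fin n)} {nb : Fin n → List (Fin n)}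
    (hl : Lists H nb) {k : ℕ} {c : Fin n → Fin k} (h : IsMajority H c) (v : Fin n) :
    Ok (c v) ((nb v).map c) := by
  have := ((isMajority_iff hl c).1 h).2 v
  unfold Ok
  rw [List.length_map, List.countP_map]
  exact this

lemma core_G :
    ∀ c5 c8 c4 c2 c6 : Fin 4,
    Ok c5 [c2, c4, c6, c8] →
    ∀ c0 c3 : Fin 4,
    Ok c0 [c3, c6, c8, c0, c0] →
    Ok c6 [c0, c3, c5, c6, c6] →
    ∀ c1 : Fin 4,
    Ok c1 [c2, c3, c8, c1, c1] →
    Ok c2 [c1, c3, c5, c2, c2] →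
    Ok c8 [c0, c1, c4, c5] →
    ∀ c9 : Fin 4,
    Ok c9 [c3, c4, c9] →
    ∀ c7 : Fin 4,
    Ok c3 [c0, c1, c2, c6, c7, c9] →
    Ok c4 [c5, c7, c8, c9] →
    Ok c7 [c3, c4, c7] →
    ¬ ∀ y : Fin 4, y ∈ [c0, c1, c2, c3, c4, c5, c6, c7, c8, c9] := by
  decide +kernel

lemma upper_G : mc G ≤ 3 := by
  refine mc_le _ 3 fun c hc => ?_
  have key := ok_of_isMajority lists_G hc
  have e10 : c 10 = c 0 := ok_single (key 10)
  have e11 : c 11 = c 0 := ok_single (key 11)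
  have e12 : c 12 = c 1 := ok_single (key 12)
  have e13 : c 13 = c 1 := ok_single (key 13)
  have e14 : c 14 = c 2 := ok_single (key 14)
  have e15 : c 15 = c 2 := ok_single (key 15)
  have e16 : c 16 = c 6 := ok_single (key 16)
  have e17 : c 17 = c 6 := ok_single (key 17)
  have e18 : c 18 = c 7 := ok_single (key 18)
  have e19 : c 19 = c 9 := ok_single (key 19)
  have h0 : Ok (c 0) [c 3, c 6, c 8, c 10, c 11] := key 0
  rw [e10, e11] at h0
  have h1 : Ok (c 1) [c 2, c 3, c 8, c 12, c 13] := key 1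
  rw [e12, e13] at h1
  have h2 : Ok (c 2) [c 1, c 3, c 5, c 14, c 15] := key 2
  rw [e14, e15] at h2
  have h3 : Ok (c 3) [c 0, c 1, c 2, c 6, c 7, c 9] := key 3
  have h4 : Ok (c 4) [c 5, c 7, c 8, c 9] := key 4
  have h5 : Ok (c 5) [c 2, c 4, c 6, c 8] := key 5
  have h6 : Ok (c 6) [c 0, c 3, c 5, c 16, c 17] := key 6
  rw [e16, e17] at h6
  have h7 : Ok (c 7) [c 3, c 4, c 18] := key 7
  rw [e18] at h7
  have h8 : Ok (c 8) [c 0, c 1, c 4, c 5] := key 8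
  have h9 : Ok (c 9) [c 3, c 4, c 19] := key 9
  rw [e19] at h9
  have hs : ∀ y : Fin 4, y ∈ [c 0, c 1, c 2, c 3, c 4, c 5, c 6, c 7, c 8, c 9] := by
    intro y
    obtain ⟨x, rfl⟩ := hc.1 y
    fin_cases x <;> simp [e10, e11, e12, e13, e14, e15, e16, e17, e18, e19]
  exact core_G (c 5) (c 8) (c 4) (c 2) (c 6) h5 (c 0) (c 3) h0 h6 (c 1) h1 h2 h8 (c 9) h9 (c 7) h3 h4 h7 hs

lemma core_del45 :
    ∀ c5 c8 c2 c6 : Fin 3,
    Ok c5 [c2, c6, c8] →
    ∀ c1 c3 : Fin 3,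
    Ok c1 [c2, c3, c8, c1, c1] →
    Ok c2 [c1, c3, c5, c2, c2] →
    ∀ c0 : Fin 3,
    Ok c0 [c3, c6, c8, c0, c0] →
    Ok c6 [c0, c3, c5, c6, c6] →
    ∀ c4 : Fin 3,
    Ok c8 [c0, c1, c4, c5] →
    ∀ c9 : Fin 3,
    Ok c9 [c3, c4, c9] →
    ∀ c7 : Fin 3,
    Ok c3 [c0, c1, c2, c6, c7, c9] →
    Ok c4 [c7, c8, c9] →
    Ok c7 [c3, c4, c7] →
    ¬ ∀ y : Fin 3, y ∈ [c0, c1, c2, c3, c4, c5, c6, c7, c8, c9] := by
  decide +kernel

lemma upper_del45 : mc (G.deleteEdges {s(4, 5)}) ≤ 2 := by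
  refine mc_le _ 2 fun c hc => ?_
  have key := ok_of_isMajority (lists_del 4 5) hc
  have e10 : c 10 = c 0 := ok_single (key 10)
  have e11 : c 11 = c 0 := ok_single (key 11)
  have e12 : c 12 = c 1 := ok_single (key 12)
  have e13 : c 13 = c 1 := ok_single (key 13)
  have e14 : c 14 = c 2 := ok_single (key 14)
  have e15 : c 15 = c 2 := ok_single (key 15)
  have e16 : c 16 = c 6 := ok_single (key 16)
  have e17 : c 17 = c 6 := ok_single (key 17)
  have e18 : c 18 = c 7 := ok_single (key 18)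
  have e19 : c 19 = c 9 := ok_single (key 19)
  have h0 : Ok (c 0) [c 3, c 6, c 8, c 10, c 11] := key 0
  rw [e10, e11] at h0
  have h1 : Ok (c 1) [c 2, c 3, c 8, c 12, c 13] := key 1
  rw [e12, e13] at h1
  have h2 : Ok (c 2) [c 1, c 3, c 5, c 14, c 15] := key 2
  rw [e14, e15] at h2
  have h3 : Ok (c 3) [c 0, c 1, c 2, c 6, c 7, c 9] := key 3
  have h4 : Ok (c 4) [c 7, c 8, c 9] := key 4
  have h5 : Ok (c 5) [c 2, c 6, c 8] := key 5
  have h6 : Ok (c 6) [c 0, c 3, c 5, c 16, c 17] := key 6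
  rw [e16, e17] at h6
  have h7 : Ok (c 7) [c 3, c 4, c 18] := key 7
  rw [e18] at h7
  have h8 : Ok (c 8) [c 0, c 1, c 4, c 5] := key 8
  have h9 : Ok (c 9) [c 3, c 4, c 19] := key 9
  rw [e19] at h9
  have hs : ∀ y : Fin 3, y ∈ [c 0, c 1, c 2, c 3, c 4, c 5, c 6, c 7, c 8, c 9] := by
    intro y
    obtain ⟨x, rfl⟩ := hc.1 y
    fin_cases x <;> simp [e10, e11, e12, e13, e14, e15, e16, e17, e18, e19]
  exact core_del45 (c 5) (c 8) (c 2) (c 6) h5 (c 1) (c 3) h1 h2 (c 0) h0 h6 (c 4) h8 (c 9) h9 (c 7) h3 h4 h7 hs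

lemma core_del48 :
    ∀ c8 c1 c0 c5 : Fin 3,
    Ok c8 [c0, c1, c5] →
    ∀ c3 c6 : Fin 3,
    Ok c0 [c3, c6, c8, c0, c0] →
    Ok c6 [c0, c3, c5, c6, c6] →
    ∀ c2 : Fin 3,
    Ok c1 [c2, c3, c8, c1, c1] →
    Ok c2 [c1, c3, c5, c2, c2] →
    ∀ c4 : Fin 3,
    Ok c5 [c2, c4, c6, c8] →
    ∀ c9 : Fin 3,
    Ok c9 [c3, c4, c9] →
    ∀ c7 : Fin 3,
    Ok c3 [c0, c1, c2, c6, c7, c9] →
    Ok c4 [c5, c7, c9] →
    Ok c7 [c3, c4, c7] →
    ¬ ∀ y : Fin 3, y ∈ [c0, c1, c2, c3, c4, c5, c6, c7, c8, c9] := by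
  decide +kernel

lemma upper_del48 : mc (G.deleteEdges {s(4, 8)}) ≤ 2 := by
  refine mc_le _ 2 fun c hc => ?_
  have key := ok_of_isMajority (lists_del 4 8) hc
  have e10 : c 10 = c 0 := ok_single (key 10)
  have e11 : c 11 = c 0 := ok_single (key 11)
  have e12 : c 12 = c 1 := ok_single (key 12)
  have e13 : c 13 = c 1 := ok_single (key 13)
  have e14 : c 14 = c 2 := ok_single (key 14)
  have e15 : c 15 = c 2 := ok_single (key 15)
  have e16 : c 16 = c 6 := ok_single (key 16)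
  have e17 : c 17 = c 6 := ok_single (key 17)
  have e18 : c 18 = c 7 := ok_single (key 18)
  have e19 : c 19 = c 9 := ok_single (key 19)
  have h0 : Ok (c 0) [c 3, c 6, c 8, c 10, c 11] := key 0
  rw [e10, e11] at h0
  have h1 : Ok (c 1) [c 2, c 3, c 8, c 12, c 13] := key 1
  rw [e12, e13] at h1
  have h2 : Ok (c 2) [c 1, c 3, c 5, c 14, c 15] := key 2
  rw [e14, e15] at h2
  have h3 : Ok (c 3) [c 0, c 1, c 2, c 6, c 7, c 9] := key 3
  have h4 : Ok (c 4) [c 5, c 7, c 9] := key 4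
  have h5 : Ok (c 5) [c 2, c 4, c 6, c 8] := key 5
  have h6 : Ok (c 6) [c 0, c 3, c 5, c 16, c 17] := key 6
  rw [e16, e17] at h6
  have h7 : Ok (c 7) [c 3, c 4, c 18] := key 7
  rw [e18] at h7
  have h8 : Ok (c 8) [c 0, c 1, c 5] := key 8
  have h9 : Ok (c 9) [c 3, c 4, c 19] := key 9
  rw [e19] at h9
  have hs : ∀ y : Fin 3, y ∈ [c 0, c 1, c 2, c 3, c 4, c 5, c 6, c 7, c 8, c 9] := by
    intro y
    obtain ⟨x, rfl⟩ := hc.1 y
    fin_cases x <;> simp [e10, e11, e12, e13, e14, e15, e16, e17, e18, e19]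
  exact core_del48 (c 8) (c 1) (c 0) (c 5) h8 (c 3) (c 6) h0 h6 (c 2) h1 h2 (c 4) h5 (c 9) h9 (c 7) h3 h4 h7 hs

lemma core_del58 :
    ∀ c0 c8 c1 c4 : Fin 3,
    Ok c8 [c0, c1, c4] →
    ∀ c3 c2 : Fin 3,
    Ok c1 [c2, c3, c8, c1, c1] →
    ∀ c5 : Fin 3,
    Ok c2 [c1, c3, c5, c2, c2] →
    ∀ c6 : Fin 3,
    Ok c0 [c3, c6, c8, c0, c0] →
    Ok c5 [c2, c4, c6] →
    Ok c6 [c0, c3, c5, c6, c6] →
    ∀ c7 : Fin 3,
    Ok c7 [c3, c4, c7] →
    ∀ c9 : Fin 3,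
    Ok c3 [c0, c1, c2, c6, c7, c9] →
    Ok c4 [c5, c7, c8, c9] →
    Ok c9 [c3, c4, c9] →
    ¬ ∀ y : Fin 3, y ∈ [c0, c1, c2, c3, c4, c5, c6, c7, c8, c9] := by
  decide +kernel

lemma upper_del58 : mc (G.deleteEdges {s(5, 8)}) ≤ 2 := by
  refine mc_le _ 2 fun c hc => ?_
  have key := ok_of_isMajority (lists_del 5 8) hc
  have e10 : c 10 = c 0 := ok_single (key 10)
  have e11 : c 11 = c 0 := ok_single (key 11)
  have e12 : c 12 = c 1 := ok_single (key 12)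
  have e13 : c 13 = c 1 := ok_single (key 13)
  have e14 : c 14 = c 2 := ok_single (key 14)
  have e15 : c 15 = c 2 := ok_single (key 15)
  have e16 : c 16 = c 6 := ok_single (key 16)
  have e17 : c 17 = c 6 := ok_single (key 17)
  have e18 : c 18 = c 7 := ok_single (key 18)
  have e19 : c 19 = c 9 := ok_single (key 19)
  have h0 : Ok (c 0) [c 3, c 6, c 8, c 10, c 11] := key 0
  rw [e10, e11] at h0
  have h1 : Ok (c 1) [c 2, c 3, c 8, c 12, c 13] := key 1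
  rw [e12, e13] at h1
  have h2 : Ok (c 2) [c 1, c 3, c 5, c 14, c 15] := key 2
  rw [e14, e15] at h2
  have h3 : Ok (c 3) [c 0, c 1, c 2, c 6, c 7, c 9] := key 3
  have h4 : Ok (c 4) [c 5, c 7, c 8, c 9] := key 4
  have h5 : Ok (c 5) [c 2, c 4, c 6] := key 5
  have h6 : Ok (c 6) [c 0, c 3, c 5, c 16, c 17] := key 6
  rw [e16, e17] at h6
  have h7 : Ok (c 7) [c 3, c 4, c 18] := key 7
  rw [e18] at h7
  have h8 : Ok (c 8) [c 0, c 1, c 4] := key 8
  have h9 : Ok (c 9) [c 3, c 4, c 19] := key 9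
  rw [e19] at h9
  have hs : ∀ y : Fin 3, y ∈ [c 0, c 1, c 2, c 3, c 4, c 5, c 6, c 7, c 8, c 9] := by
    intro y
    obtain ⟨x, rfl⟩ := hc.1 y
    fin_cases x <;> simp [e10, e11, e12, e13, e14, e15, e16, e17, e18, e19]
  exact core_del58 (c 0) (c 8) (c 1) (c 4) h8 (c 3) (c 2) h1 (c 5) h2 (c 6) h0 h5 h6 (c 7) h7 (c 9) h3 h4 h9 hs

/-! ### The main result -/

lemma mc_G : mc G = 3 := le_antisymm upper_G lower_G

/-- The three edges whose deletion decreases `mc`. -/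
def dec : List (Fin 20 × Fin 20) := [(4, 5), (4, 8), (5, 8)]

lemma upper_del (a b : Fin 20) (h : (a, b) ∈ dec) : mc (G.deleteEdges {s(a, b)}) ≤ 2 := by
  simp only [dec, List.mem_cons, Prod.mk.injEq, List.not_mem_nil, or_false] at h
  rcases h with ⟨rfl, rfl⟩ | ⟨rfl, rfl⟩ | ⟨rfl, rfl⟩
  · exact upper_del45
  · exact upper_del48
  · exact upper_del58

lemma cover : ∀ a b : Fin 20, b ∈ nb a → (a, b) ∈ inc ∨ (b, a) ∈ inc ∨
    (a, b) ∈ dec ∨ (b, a) ∈ dec := by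
  decide +kernel

lemma critical : IsMcEdgeCritical G := by
  refine ⟨⟨s(4, 5), ?_⟩, ?_⟩
  · rw [SimpleGraph.mem_edgeSet]
    show (5 : Fin 20) ∈ nb 4
    decide
  · intro e
    induction e using Sym2.ind with
    | _ a b =>
      intro he
      rw [SimpleGraph.mem_edgeSet] at he
      rcases cover a b he with h | h | h | h
      · have := lower_del a b h
        rw [mc_G]
        omega
      · have := lower_del b a h
        rw [Sym2.eq_swap, mc_G]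
        omega
      · have := upper_del a b h
        rw [mc_G]
        omega
      · have := upper_del b a h
        rw [Sym2.eq_swap, mc_G]
        omega

lemma connected : G.Connected := by
  rw [SimpleGraph.connected_iff_exists_forall_reachable]
  have adj : ∀ v w : Fin 20, w ∈ nb v → G.Reachable v w := fun v w h =>
    SimpleGraph.Adj.reachable (G := G) h
  have r3 : G.Reachable 0 3 := adj 0 3 (by decide)
  have r6 : G.Reachable 0 6 := adj 0 6 (by decide)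
  have r8 : G.Reachable 0 8 := adj 0 8 (by decide)
  have r1 : G.Reachable 0 1 := r3.trans (adj 3 1 (by decide))
  have r2 : G.Reachable 0 2 := r3.trans (adj 3 2 (by decide))
  have r7 : G.Reachable 0 7 := r3.trans (adj 3 7 (by decide))
  have r9 : G.Reachable 0 9 := r3.trans (adj 3 9 (by decide))
  have r4 : G.Reachable 0 4 := r8.trans (adj 8 4 (by decide))
  have r5 : G.Reachable 0 5 := r8.trans (adj 8 5 (by decide))
  refine ⟨0, fun w => ?_⟩
  have base : ∀ w : Fin 20, w.val < 10 → G.Reachable 0 w := by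
    intro w hw
    fin_cases w
    · exact SimpleGraph.Reachable.refl _
    · exact r1
    · exact r2
    · exact r3
    · exact r4
    · exact r5
    · exact r6
    · exact r7
    · exact r8
    · exact r9
    all_goals exact absurd hw (by decide)
  have par : ∀ w : Fin 20, w.val < 10 ∨ ∃ v : Fin 20, v.val < 10 ∧ w ∈ nb v := by decide +kernel
  rcases par w with h | ⟨v, hv, hw⟩
  · exact base w h
  · exact (base v hv).trans (adj v w hw)

/-- There is a connected mc-edge-critical graph `G` with at least two edges which has an edge `e`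
and an edge `f` with `mc (G - e) < mc G < mc (G - f)`. -/
theorem result :
    ∃ G : SimpleGraph (Fin 20), G.Connected ∧ IsMcEdgeCritical G ∧ 2 ≤ G.edgeSet.ncard ∧
      ∃ e ∈ G.edgeSet, ∃ f ∈ G.edgeSet,
        mc (G.deleteEdges {e}) < mc G ∧ mc G < mc (G.deleteEdges {f}) := by
  have h45 : s((4 : Fin 20), 5) ∈ G.edgeSet := by
    rw [SimpleGraph.mem_edgeSet]
    show (5 : Fin 20) ∈ nb 4
    decide
  have h03 : s((0 : Fin 20), 3) ∈ G.edgeSet := by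
    rw [SimpleGraph.mem_edgeSet]
    show (3 : Fin 20) ∈ nb 0
    decide
  refine ⟨G, connected, critical, ?_, s(4, 5), h45, s(0, 3), h03, ?_, ?_⟩
  · have : 1 < G.edgeSet.ncard := by
      rw [Set.one_lt_ncard (Set.toFinite _)]
      exact ⟨_, h45, _, h03, by decide⟩
    omega
  · have := upper_del45
    rw [mc_G]
    omega
  · have := lower_del 0 3 (by decide)
    rw [mc_G]
    omega

end Pool.Agent.Results.MP_232fda_co.MixedCritical
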